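import Mathlib
import Pool.Agent.MP_52c225_lc.Final

namespace Pool.Agent.Results.MP_52c225_lc.ReductionClosed

open Pool.Agent.MP_52c225_lc

/-- Let `n ≥ 2`, let `E`, `F` be countable Borel equivalence relations and let `f` be a Borel
reduction of `E` to `F` (for instance a Borel embedding).  If `F` is structurable by contractible
simplicial complexes of dimension at most `n`, then so is `E`, and the complexes can be chosen of
dimension exactly `n` on every class with at least `n + 1` points. -/
theorem result (n : ℕ) (hn : 2 ≤ n)
    (X : Type*) [MeasurableSpace X] [StandardBorelSpace X]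
    (Y : Type*) [MeasurableSpace Y] [StandardBorelSpace Y]
    (E : Setoid X) (F : Setoid Y) (hE : IsCBER E) (hF : IsCBER F)
    (f : X → Y) (hf : Measurable f) (hred : ∀ x x', E x x' ↔ F (f x) (f x'))
    (hT : ∃ T : AbstractSimplicialComplex Y, IsStructure n F T) :
    ∃ S : AbstractSimplicialComplex X, IsStructure n E S ∧
      ∀ x, ((n + 1 : ℕ) : ℕ∞) ≤ {a | E x a}.encard →
        ∃ s ∈ S.faces, (∀ a ∈ s, E x a) ∧ s.card = n + 1 := by
  obtain ⟨T, hT⟩ := hT
  exact main n hn E F hE hF f hf hred T hT

end Pool.Agent.Results.MP_52c225_lc.ReductionClosed
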